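import Pool.Agent.Lib.MP_ef13ad_lc.R.Defs

open Cardinal Ordinal Set Order

namespace Pool.Agent.MP_ef13ad_lc

/-- Every large subset of `X` with small initial segments carries a monotone interleaved family,
with thresholds in `D`. -/
def GoodIn (k : Cardinal.{0}) (X D : Set Ordinal.{0})
    (F : Ordinal.{0} → Ordinal.{0} → Ordinal.{0}) : Prop :=
  ∀ u, ℵ₀ ≤ u → u < k → ∀ Z ⊆ X, ¬ Sz Z u → (∀ z ∈ Z, Sz (Z ∩ Iio z) u) →
    (∃ C ⊆ D, Sz C u ∧ ∀ s ∈ D, ∃ i ∈ C, s ≤ i) →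
    ∃ d : Ordinal.{0} → Ordinal.{0} → Ordinal.{0},
      (∀ b ∈ Z, ∀ b' ∈ Z, b ≤ b' → ∀ i ∈ D, d b i ≤ d b' i) ∧
      (∀ b ∈ Z, ∃ s ∈ D, ∀ i ∈ D, s ≤ i → F b i ≤ d b i) ∧
      ∀ b ∈ Z, ∃ z ∈ Z, ∃ s ∈ D, ∀ i ∈ D, s ≤ i → d b i < F z i

/-- `G` is increasing modulo finite sets, of length `t⁺`, and good at all points of cofinality
`u⁺` for infinite `u < t`. -/
def GoodFam (t : Cardinal.{0}) (G : Ordinal.{0} → Ordinal.{0} → Ordinal.{0}) : Prop :=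
  Inc ω G (succ t).ord ∧
    ∀ u, ℵ₀ ≤ u → u < t → ∀ a < (succ t).ord, a.cof = succ u → Good ω G a

/-- `h` is an exact upper bound modulo finite sets. -/
def Exact (G : Ordinal.{0} → Ordinal.{0} → Ordinal.{0}) (a : Ordinal.{0})
    (h : Ordinal.{0} → Ordinal.{0}) : Prop :=
  (∀ b < a, AE ω (fun n => G b n < h n)) ∧
    ∀ g : Ordinal.{0} → Ordinal.{0}, ∃ x < a, AE ω (fun n => g n < h n → g n < G x n)

/-- A good scale at `ℵ_(a+i)` on successor cardinals `ℵ_(a + e n + 1)` with `e n` tending to `i`. -/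
def Lev (a i : Ordinal.{0}) (G : Ordinal.{0} → Ordinal.{0} → Ordinal.{0})
    (h e : Ordinal.{0} → Ordinal.{0}) : Prop :=
  GoodFam (ℵ_ (a + i)) G ∧ Exact G (succ (ℵ_ (a + i))).ord h ∧
    AE ω (fun n => e n < i ∧ (h n).cof = succ (ℵ_ (a + e n))) ∧ ∀ j < i, AE ω (fun n => j < e n)

end Pool.Agent.MP_ef13ad_lc
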