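import Pool.Agent.Lib.MP_ef13ad_lc.T.Inter
import Pool.Agent.Lib.MP_ef13ad_lc.Guess
import Pool.Agent.Lib.MP_ef13ad_lc.Eub

open Cardinal Ordinal Set Order

namespace Pool.Agent.MP_ef13ad_lc

theorem exa_key {t u : Cardinal.{0}} {G : Ordinal.{0} → Ordinal.{0} → Ordinal.{0}}
    (h : GoodFam t G) (hu : ℵ₀ ≤ u) (hut : u < t) (S : Ordinal.{0} → Set Ordinal.{0})
    (hS : ∀ n < ω, Sz (S n) u)
    (H : ∀ b < (succ t).ord, ∃ b' < (succ t).ord,
      ¬ AE ω (fun n => ¬ ∃ s ∈ S n, G b n ≤ s ∧ s < G b' n)) : False := by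
  choose! p hp hp' using H
  obtain ⟨e, he, hc, hcl⟩ := exists_closed (isRegular_succ (hu.trans hut.le)) (isRegular_succ hu)
    (succ_lt_succ hut) p hp
  exact (h.2 u hu hut e he hc).not_interleaved hu (by simpa using hu) hc S hS
    fun b hb => ⟨p b, hcl b hb, hp' b (hb.trans he)⟩

theorem exa_bp {t : Cardinal.{0}} {G : Ordinal.{0} → Ordinal.{0} → Ordinal.{0}}
    (h : GoodFam t G) (ht : ℵ₀ < t) : BP ℵ₀ G (succ t).ord := by
  unfold BP
  rw [ord_aleph0]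
  intro S hS htop
  by_contra hcon
  refine exa_key h le_rfl ht S hS fun x hx => ?_
  by_contra hn
  refine hcon ⟨x, hx, fun b hb => ?_⟩
  have h1 : AE ω (fun n => ¬ ∃ s ∈ S n, G x n ≤ s ∧ s < G b n) := by
    by_contra h2
    exact hn ⟨b, hb, h2⟩
  refine h1.mono fun i hi h2 => ?_
  have hmem : sInf {s | s ∈ S i ∧ G x i ≤ s} ∈ {s | s ∈ S i ∧ G x i ≤ s} :=
    csInf_mem (htop x hx i hi)
  by_contra h3
  exact h2 ⟨_, hmem.1, hmem.2, not_le.1 h3⟩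

theorem exa_low {t u : Cardinal.{0}} {G : Ordinal.{0} → Ordinal.{0} → Ordinal.{0}}
    {e : Ordinal.{0} → Ordinal.{0}} (h : GoodFam t G) (he : Exact G (succ t).ord e)
    (hu : ℵ₀ ≤ u) (hut : u < t) : AE ω (fun n => u < (e n).cof) := by
  by_contra hcon
  choose c _ hc1 hc2 using fun n => exists_cofSeq (e n)
  refine exa_key h hu hut (fun n => {s | (e n).cof ≤ u ∧ s ∈ c n '' Iio (e n).cof.ord})
    (fun n _ => ?_) fun b hb => ?_
  · by_cases hn : (e n).cof ≤ u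
    · exact (((Sz_Iio_ord _).image (c n)).trans_le hn).mono fun s hs => hs.2
    · exact Sz_of_subsingleton (fun s hs => absurd hs.1 hn) hu
  · obtain ⟨x, hx, hx'⟩ := he.2 fun n => sInf {s | s ∈ c n '' Iio (e n).cof.ord ∧ G b n ≤ s}
    refine ⟨x, hx, fun h1 => hcon (((h1.and hx').and (he.1 b hb)).mono fun n _ h2 => ?_)⟩
    obtain ⟨⟨h3, h4⟩, h5⟩ := h2
    by_contra h6
    obtain ⟨j, hj, hj'⟩ := hc2 n _ h5
    have hmem : sInf {s | s ∈ c n '' Iio (e n).cof.ord ∧ G b n ≤ s} ∈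
        {s | s ∈ c n '' Iio (e n).cof.ord ∧ G b n ≤ s} := csInf_mem ⟨c n j, ⟨j, hj, rfl⟩, hj'⟩
    obtain ⟨j', hj1, hj2⟩ := hmem.1
    exact h3 ⟨_, ⟨not_lt.1 h6, hmem.1⟩, hmem.2, h4 (hj2 ▸ hc1 n j' hj1)⟩

theorem GoodFam.exists_exact {t : Cardinal.{0}} {D : Set Ordinal.{0}}
    {G : Ordinal.{0} → Ordinal.{0} → Ordinal.{0}} (h : GoodFam t G) (hs : t.IsSingular)
    (hD : Sz D t) (hG : ∀ x < (succ t).ord, ∀ n < ω, G x n ∈ D) :
    ∃ h : Ordinal.{0} → Ordinal.{0}, Exact G (succ t).ord h ∧ AE ω (fun n => (h n).cof < t) ∧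
      ∀ u < t, AE ω (fun n => u < (h n).cof) := by
  have ht : ℵ₀ < t := hs.aleph0_le.lt_of_ne fun e => not_isSingular_aleph0 (e ▸ hs)
  obtain ⟨e, he⟩ := exists_eub (v := ℵ₀) (F := G) (a := (succ t).ord) (top := sSup D) le_rfl
    (by rw [(isRegular_succ ht.le).cof_ord]; exact succ_lt_succ ht)
    (by rw [ord_aleph0]; exact h.1)
    (by rw [ord_aleph0]; exact fun b hb i hi => le_csSup hD.bddAbove (hG b hb i hi))
    (exa_bp h ht)
  unfold EUB at he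
  rw [ord_aleph0] at he
  have hE : Exact G (succ t).ord e := by
    refine ⟨he.1, fun g => ?_⟩
    obtain ⟨x, hx, hx'⟩ := he.2 (fun n => {g n}) fun n _ => Sz_singleton _ le_rfl
    exact ⟨x, hx, hx'.mono fun n _ h1 => h1 _ rfl⟩
  refine ⟨e, hE, ?_, fun u hu => ?_⟩
  · obtain ⟨x, hx, hx'⟩ := hE.2 fun n => sSup {y | y ∈ D ∧ y < e n}
    refine ((hx'.and (hE.1 x hx)).and (exa_low h hE le_rfl ht)).mono fun n hn h1 => ?_
    obtain ⟨⟨h2, h3⟩, h4⟩ := h1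
    have hD' : Sz {y | y ∈ D ∧ y < e n} t := hD.mono fun y hy => hy.1
    rcases lt_trichotomy (e n).cof t with h5 | h5 | h5
    · exact h5
    · exact absurd (h5 ▸ isRegular_cof (Ordinal.one_lt_cof_iff.1 (one_lt_aleph0.trans h4)))
        hs.not_isRegular
    · exact absurd (h2 (hD'.sSup_lt h5 fun y hy => hy.2))
        (le_csSup hD'.bddAbove ⟨hG x hx n hn, h3⟩).not_gt
  · exact (exa_low h hE (le_max_right u ℵ₀) (max_lt hu ht)).mono fun n _ h1 =>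
      (le_max_left _ _).trans_lt h1

end Pool.Agent.MP_ef13ad_lc
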