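import Pool.Agent.Lib.MP_ef13ad_lc.T.Thin2

open Cardinal Ordinal Set Order

namespace Pool.Agent.MP_ef13ad_lc

theorem GoodIn.exists_goodFam {t : Cardinal.{0}} {X D : Set Ordinal.{0}}
    {F : Ordinal.{0} → Ordinal.{0} → Ordinal.{0}} {c : Ordinal.{0} → Ordinal.{0}}
    (h : GoodIn t X D F) (ht : ℵ₀ ≤ t) (hX : ¬ Sz X t) (hX' : ∀ x ∈ X, Sz (X ∩ Iio x) t)
    (hF : ∀ z ∈ X, ∀ i ∈ D, F z i ∈ D)
    (hI : ∀ x ∈ X, ∀ y ∈ X, x < y → ∃ s ∈ D, ∀ i ∈ D, s ≤ i → F x i < F y i)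
    (hc : ∀ j < ω, c j ∈ D) (hc' : ∀ s ∈ D, AE ω (fun j => s ≤ c j)) :
    ∃ G : Ordinal.{0} → Ordinal.{0} → Ordinal.{0},
      (∀ x < (succ t).ord, ∀ n < ω, G x n ∈ D) ∧ GoodFam t G := by
  obtain ⟨p, hp, hpX⟩ := exists_enum ht hX hX'
  have T : ∀ R : Ordinal.{0} → Prop, (∃ s ∈ D, ∀ i ∈ D, s ≤ i → R i) →
      AE ω (fun n => R (c n)) := by
    rintro R ⟨s, hs, hR⟩
    exact (hc' s hs).mono fun n hn hsn => hR (c n) (hc n hn) hsn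
  have hInc : Inc ω (fun x n => F (p x) (c n)) (succ t).ord := by
    intro b b' hbb hb'
    have hb : b < (succ t).ord := hbb.trans hb'
    exact T (fun i => F (p b) i < F (p b') i)
      (hI (p b) (hpX b hb) (p b') (hpX b' hb') (hp hb hb' hbb))
  refine ⟨fun x n => F (p x) (c n), fun x hx n hn => hF _ (hpX x hx) _ (hc n hn), hInc, ?_⟩
  intro u hu hut a hat ha
  obtain ⟨cs, hcs, hcsa, hcof⟩ := exists_cofSeq a
  rw [ha] at hcs hcsa hcof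
  have hcst : ∀ j < (succ u).ord, cs j < (succ t).ord := fun j hj => (hcsa j hj).trans hat
  have hq : StrictMonoOn (fun j => p (cs j)) (Iio (succ u).ord) :=
    fun j hj j' hj' hjj => hp (hcst j hj) (hcst j' hj') (hcs hj hj' hjj)
  have hZX : (fun j => p (cs j)) '' Iio (succ u).ord ⊆ X := by
    rintro _ ⟨j, hj, rfl⟩
    exact hpX _ (hcst j hj)
  have hZ : ¬ Sz ((fun j => p (cs j)) '' Iio (succ u).ord) u := by
    intro hs
    refine not_Sz_Iio (o := (succ u).ord) (c := u) ?_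
      (Sz_of_injOn hs hq.injOn fun j hj => ⟨j, hj, rfl⟩)
    rw [card_ord]
    exact lt_succ u
  have hZ' : ∀ z ∈ (fun j => p (cs j)) '' Iio (succ u).ord,
      Sz ((fun j => p (cs j)) '' Iio (succ u).ord ∩ Iio z) u := by
    rintro _ ⟨j, hj, rfl⟩
    have hju : j.card ≤ u := lt_succ_iff.1 (Cardinal.lt_ord.1 hj)
    refine ((Sz_Iio hju).image (fun j => p (cs j))).mono ?_
    rintro _ ⟨⟨j', hj', rfl⟩, hlt⟩
    exact ⟨j', (hq.lt_iff_lt hj' hj).1 hlt, rfl⟩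
  have hC : ∃ C ⊆ D, Sz C u ∧ ∀ s ∈ D, ∃ i ∈ C, s ≤ i := by
    refine ⟨c '' Iio ω, ?_, (Sz_Iio (by simpa using hu)).image c, fun s hs => ?_⟩
    · rintro _ ⟨n, hn, rfl⟩
      exact hc n hn
    · obtain ⟨n, hn, hsn⟩ := (hc' s hs).exists
      exact ⟨c n, ⟨n, hn, rfl⟩, hsn⟩
  obtain ⟨d, hd1, hd2, hd3⟩ := h u hu hut _ hZX hZ hZ' hC
  have hr : ∀ b < a, sInf {j | j < (succ u).ord ∧ b ≤ cs j} < (succ u).ord ∧
      b ≤ cs (sInf {j | j < (succ u).ord ∧ b ≤ cs j}) := fun b hb =>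
    csInf_mem (s := {j | j < (succ u).ord ∧ b ≤ cs j}) (hcof b hb)
  refine ⟨fun b n => d (p (cs (sInf {j | j < (succ u).ord ∧ b ≤ cs j}))) (c n), ?_, ?_, ?_⟩
  · intro b b' hbb hb' n hn
    have hb : b < a := hbb.trans_lt hb'
    have hle : sInf {j | j < (succ u).ord ∧ b ≤ cs j} ≤ sInf {j | j < (succ u).ord ∧ b' ≤ cs j} :=
      csInf_le' (show _ ∈ {j | j < (succ u).ord ∧ b ≤ cs j} from
        ⟨(hr b' hb').1, hbb.trans (hr b' hb').2⟩)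
    exact hd1 _ ⟨_, (hr b hb).1, rfl⟩ _ ⟨_, (hr b' hb').1, rfl⟩
      (hq.monotoneOn (hr b hb).1 (hr b' hb').1 hle) _ (hc n hn)
  · intro b hb
    have h1 := hInc.le omega0_pos (hr b hb).2 (hcst _ (hr b hb).1)
    have h2 := T _ (hd2 _ ⟨_, (hr b hb).1, rfl⟩)
    exact (h1.and h2).mono fun n _ hn => hn.1.trans hn.2
  · intro b hb
    obtain ⟨_, ⟨j, hj, rfl⟩, hs⟩ := hd3 _ ⟨_, (hr b hb).1, rfl⟩
    exact ⟨cs j, hcsa j hj, T _ hs⟩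

end Pool.Agent.MP_ef13ad_lc
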