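import Pool.Agent.Lib.MP_ef13ad_lc.T.Defs
import Pool.Agent.Lib.MP_ef13ad_lc.R.NoThin

open Cardinal Ordinal Set Order

namespace Pool.Agent.MP_ef13ad_lc

theorem CC.goodIn {k l : Cardinal.{0}} (hk : ℵ₀ ≤ k) (hreg : l.IsRegular) (h : CC l k) :
    ∃ (X D : Set Ordinal.{0}) (F : Ordinal.{0} → Ordinal.{0} → Ordinal.{0}),
      ¬ Sz X k ∧ (∀ x ∈ X, Sz (X ∩ Iio x) k) ∧ Sz D k ∧ (∀ z ∈ X, ∀ i ∈ D, F z i ∈ D) ∧
      (∀ x ∈ X, ∀ y ∈ X, x < y → ∃ s ∈ D, ∀ i ∈ D, s ≤ i → F x i < F y i) ∧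
      GoodIn k X D F := by
  obtain ⟨F, hb, hF⟩ := exists_seq_reg hreg
  have hl : ℵ₀ ≤ l := hreg.aleph0_le
  have hLl : IsSuccLimit (succ l).ord := isSuccLimit_ord (hl.trans (le_succ l))
  have hL : 0 < (succ l).ord := hLl.pos
  have hlL : l.ord < (succ l).ord := ord_lt_ord.2 (lt_succ l)
  have hn0 : 0 < l.ord := hreg.ord_pos
  choose cs hcs1 hcs2 hcs3 using exists_cofSeq
  have hd : ∀ a, ∃ d : Ordinal.{0} → Ordinal.{0} → Ordinal.{0}, Good l.ord F a →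
      (∀ b b', b ≤ b' → b' < a → ∀ i < l.ord, d b i ≤ d b' i) ∧
      (∀ b < a, AE l.ord (fun i => F b i ≤ d b i)) ∧
      ∀ b < a, ∃ b' < a, AE l.ord (fun i => d b i < F b' i) := by
    intro a
    by_cases h : Good l.ord F a
    · obtain ⟨d, hd⟩ := h
      exact ⟨d, fun _ => hd⟩
    · exact ⟨fun _ _ => 0, fun h' => absurd h' h⟩
  choose d hd using hd
  obtain ⟨g0, b0, s0⟩ := clash_skolem hL fun b i z => z = F b i
  obtain ⟨g1, b1, s1⟩ := clash_skolem hL fun a j z => z = cs a j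
  obtain ⟨g2, b2, s2⟩ := clash_skolem hL fun a b z => z < a.cof.ord ∧ b ≤ cs a z
  obtain ⟨g3, b3, s3⟩ := clash_skolem hL fun a b z =>
    z < a ∧ AE l.ord (fun i => d a b i < F z i)
  obtain ⟨g4, b4, s4⟩ := clash_skolem hL fun a b z =>
    z < l.ord ∧ ∀ i, z ≤ i → i < l.ord → d a b i < F (g3 a b) i
  obtain ⟨g5, b5, s5⟩ := clash_skolem hL fun a b z =>
    z < l.ord ∧ ∀ i, z ≤ i → i < l.ord → F b i ≤ d a b i
  obtain ⟨g6, b6, s6⟩ := clash_skolem hL fun b b' z =>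
    z < l.ord ∧ ∀ i, z ≤ i → i < l.ord → F b i < F b' i
  obtain ⟨X, hXL, h0X, hcl, hXk, -, hK, hinit⟩ := h.closed hl
    (fun m => match m with
      | 0 => g0 | 1 => g1 | 2 => g2 | 3 => g3 | 4 => g4 | 5 => g5 | _ + 6 => g6)
    (fun m x _ y _ => match m with
      | 0 => b0 x y | 1 => b1 x y | 2 => b2 x y | 3 => b3 x y | 4 => b4 x y | 5 => b5 x y
      | _ + 6 => b6 x y)
  have c0 : ∀ x ∈ X, ∀ y ∈ X, g0 x y ∈ X := hcl 0
  have c1 : ∀ x ∈ X, ∀ y ∈ X, g1 x y ∈ X := hcl 1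
  have c2 : ∀ x ∈ X, ∀ y ∈ X, g2 x y ∈ X := hcl 2
  have c3 : ∀ x ∈ X, ∀ y ∈ X, g3 x y ∈ X := hcl 3
  have c4 : ∀ x ∈ X, ∀ y ∈ X, g4 x y ∈ X := hcl 4
  have c5 : ∀ x ∈ X, ∀ y ∈ X, g5 x y ∈ X := hcl 5
  have c6 : ∀ x ∈ X, ∀ y ∈ X, g6 x y ∈ X := hcl 6
  have hI : ∀ x ∈ X, ∀ y ∈ X, x < y → ∃ s ∈ X ∩ Iio l.ord, ∀ i ∈ X ∩ Iio l.ord, s ≤ i →
      F x i < F y i := by
    intro x hx y hy hxy
    obtain ⟨y5, y6⟩ := s6 x y (by
      obtain ⟨j, h1, h2⟩ := hF x y hxy (hXL hy)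
      exact ⟨j, h1.trans hlL, h1, h2⟩)
    exact ⟨_, ⟨c6 x hx y hy, y5⟩, fun i hi hs => y6 i hs hi.2⟩
  refine ⟨X, X ∩ Iio l.ord, F, hXk, hinit, hK, fun z hz i hi => ?_, hI, ?_⟩
  · have h1 : F z i < l.ord := hb z (hXL hz) i hi.2
    exact ⟨s0 z i ⟨_, h1.trans hlL, rfl⟩ ▸ c0 z hz i hi.1, h1⟩
  rintro u hu' huk Z hZX hZ hZi ⟨C, hC, hCu, hCV⟩
  have hZs : Sz Z (succ u) := noThin_succ hu' hZi
  have hne : {x | x ∈ X ∧ ∀ z ∈ Z, z < x}.Nonempty := by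
    by_contra h
    refine hXk (clash_cover hk (hZs.trans_le (succ_le_of_lt huk))
      (fun y hy => hinit y (hZX hy)) fun w hw => ?_)
    by_contra h'
    push Not at h'
    exact h ⟨w, hw, h'⟩
  obtain ⟨a, ⟨haX, haZ⟩, hmin⟩ : ∃ a, (a ∈ X ∧ ∀ z ∈ Z, z < a) ∧
      ∀ x ∈ X, x < a → ∃ z ∈ Z, x ≤ z := by
    refine ⟨_, csInf_mem hne, fun x hx hlt => ?_⟩
    by_contra h'
    push Not at h'
    exact hlt.not_ge (csInf_le' ⟨hx, h'⟩)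
  have haL : a < (succ l).ord := hXL haX
  have hcase : Good l.ord F a ∨ ∃ C' ⊆ X ∩ Iio a.cof.ord, Sz C' u ∧
      ∀ x ∈ X ∩ Iio a.cof.ord, ∃ y ∈ C', x ≤ y := by
    have hle : a.cof ≤ l := (cof_le_card a).trans (lt_succ_iff.1 (lt_ord.1 haL))
    rcases hle.eq_or_lt with he | hlt
    · exact Or.inr ⟨C, he ▸ hC, hCu, fun x hx => hCV x (he ▸ hx)⟩
    · by_cases h1 : 1 < a.cof
      · exact Or.inl (good_of_small hreg h1 hlt (hF.mono haL.le))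
      · refine Or.inr ⟨_, subset_rfl, (Sz_Iio ?_).mono inter_subset_right,
          fun x hx => ⟨x, hx, le_rfl⟩⟩
        rw [card_ord]
        exact (not_lt.1 h1).trans (one_le_aleph0.trans hu')
  rcases hcase with hg | ⟨C', hC', hs', hcf⟩
  · obtain ⟨d1, d2, d3⟩ := hd a hg
    refine ⟨d a, fun b _ b' hb' hle i hi => d1 b b' hle (haZ b' hb') i hi.2, fun z hz => ?_,
      fun b hbZ => ?_⟩
    · obtain ⟨y3, y4⟩ := s5 a z (by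
        obtain ⟨j, h1, h2⟩ := d2 z (haZ z hz)
        exact ⟨j, h1.trans hlL, h1, h2⟩)
      exact ⟨_, ⟨c5 a haX z (hZX hz), y3⟩, fun i hi hs => y4 i hs hi.2⟩
    · have hbX := hZX hbZ
      obtain ⟨x1, x2⟩ := s3 a b (by
        obtain ⟨b', h1, h2⟩ := d3 b (haZ b hbZ)
        exact ⟨b', h1.trans haL, h1, h2⟩)
      obtain ⟨z, hz, hxz⟩ := hmin _ (c3 a haX b hbX) x1
      obtain ⟨y1, y2⟩ := s4 a b (by
        obtain ⟨j, h1, h2⟩ := x2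
        exact ⟨j, h1.trans hlL, h1, h2⟩)
      rcases hxz.eq_or_lt with he | hlt
      · exact ⟨z, hz, _, ⟨c4 a haX b hbX, y1⟩, fun i hi hs => he ▸ y2 i hs hi.2⟩
      · obtain ⟨s, hs, hs'⟩ := hI _ (c3 a haX b hbX) z (hZX hz) hlt
        refine ⟨z, hz, max (g4 a b) s,
          ⟨clash_max_mem (c4 a haX b hbX) hs.1, max_lt y1 hs.2⟩, fun i hi h => ?_⟩
        exact (y2 i ((le_max_left _ _).trans h) hi.2).trans (hs' i hi ((le_max_right _ _).trans h))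
  · exfalso
    have key : ∀ j ∈ C', ∃ z ∈ Z, cs a j ≤ z := by
      intro j hj
      have h1 : cs a j < a := hcs2 a j (hC' hj).2
      exact hmin _ (s1 a j ⟨_, h1.trans haL, rfl⟩ ▸ c1 a haX j (hC' hj).1) h1
    choose! zz hzz hle' using key
    refine hZ (clash_cover hu' (hs'.image zz) ?_ fun w hw => ?_)
    · rintro _ ⟨j, hj, rfl⟩
      exact hZi _ (hzz j hj)
    · obtain ⟨x1, x2⟩ := s2 a w (by
        obtain ⟨j, h1, h2⟩ := hcs3 a w (haZ w hw)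
        exact ⟨j, (h1.trans_le (ord_cof_le a)).trans haL, h1, h2⟩)
      obtain ⟨j, hj, hj'⟩ := hcf _ ⟨c2 a haX w (hZX hw), x1⟩
      exact ⟨_, ⟨j, hj, rfl⟩, x2.trans
        (((hcs1 a).monotoneOn x1 (hC' hj).2 hj').trans (hle' j hj))⟩

end Pool.Agent.MP_ef13ad_lc
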