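import Pool.Agent.Lib.MP_ef13ad_lc.T.Defs
import Pool.Agent.Lib.MP_ef13ad_lc.R.NoThin

open Cardinal Ordinal Set Order

namespace Pool.Agent.MP_ef13ad_lc

theorem Good.not_interleaved {n a : Ordinal.{0}} {u : Cardinal.{0}}
    {G : Ordinal.{0} → Ordinal.{0} → Ordinal.{0}} (hg : Good n G a) (hu : ℵ₀ ≤ u)
    (hn : n.card ≤ u) (ha : a.cof = succ u) (S : Ordinal.{0} → Set Ordinal.{0})
    (hS : ∀ i < n, Sz (S i) u)
    (h : ∀ b < a, ∃ b' < a, ¬ AE n (fun i => ¬ ∃ s ∈ S i, G b i ≤ s ∧ s < G b' i)) : False := by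
  obtain ⟨d, d1, d2, d3⟩ := hg
  obtain ⟨cs, c1, c2, c3⟩ := exists_cofSeq a
  rw [ha] at c1 c2 c3
  have key : ∀ j < (succ u).ord, ∃ b2 < a, ∃ i < n, ∃ s ∈ S i, d (cs j) i < s ∧ s < d b2 i := by
    intro j hj
    obtain ⟨b1, hb1, e1⟩ := d3 _ (c2 j hj)
    obtain ⟨b2, hb2, e2⟩ := h b1 hb1
    obtain ⟨i, hi, ⟨q1, q2⟩, q3⟩ := (e1.and (d2 b2 hb2)).exists_not e2
    obtain ⟨s, hs, r1, r2⟩ := not_not.1 q3
    exact ⟨b2, hb2, i, hi, s, hs, q1.trans_le r1, r2.trans_le q2⟩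
  choose! b2 hb2 ii hii ss hss k1 k2 using key
  obtain ⟨i, hi, w, -, hfib⟩ := pigeon2 (A := Iio (succ u).ord) (B1 := Iio n)
    (B2 := ⋃ i ∈ Iio n, S i) ii ss hu (not_Sz_Iio (by simp)) (Sz_Iio hn)
    ((Sz_Iio hn).biUnion hS hu) hii (fun j hj => mem_biUnion (hii j hj) (hss j hj))
  have big : ∀ j0 < (succ u).ord,
      ∃ j' ∈ {j | j ∈ Iio (succ u).ord ∧ ii j = i ∧ ss j = w}, j0 ≤ j' := by
    intro j0 hj0
    by_contra hc
    push Not at hc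
    exact hfib ((Sz_Iio (lt_succ_iff.1 (lt_ord.1 hj0))).mono fun y hy => hc y hy)
  obtain ⟨j, ⟨hj, e1, e2⟩, -⟩ := big 0 (isSuccLimit_ord (hu.trans (le_succ u))).pos
  obtain ⟨j0, hj0, hle⟩ := c3 _ (hb2 j hj)
  obtain ⟨j', ⟨hj', e1', e2'⟩, hle'⟩ := big j0 hj0
  have a1 := k2 j hj
  have a2 := k1 j' hj'
  have a3 := d1 _ _ (hle.trans (c1.monotoneOn hj0 hj' hle')) (c2 j' hj') i hi
  rw [e2, e1] at a1
  rw [e2', e1'] at a2
  exact ((a1.trans_le a3).trans a2).false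

theorem cof_sSup_of_init {Y : Set Ordinal.{0}} {u : Cardinal.{0}} {x : Ordinal.{0} → Ordinal.{0}}
    (hu : ℵ₀ ≤ u) (hY : ¬ Sz Y u) (hY' : ∀ y ∈ Y, Sz (Y ∩ Iio y) u) (hx : StrictMonoOn x Y) :
    (sSup (x '' Y)).cof = succ u ∧ (∀ y ∈ Y, x y < sSup (x '' Y)) ∧
      ∀ y ∈ Y, ∃ y' ∈ Y, y < y' := by
  have hmax : ∀ y ∈ Y, ∃ y' ∈ Y, y < y' := by
    intro y hy
    by_contra hc
    push Not at hc
    refine hY (clash_cover hu (Sz_singleton y hu) ?_ fun w hw => ⟨y, rfl, hc w hw⟩)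
    rintro _ rfl
    exact hY' _ hy
  have hs : Sz (x '' Y) (succ u) := (noThin_succ hu hY').image x
  have hlt : ∀ y ∈ Y, x y < sSup (x '' Y) := by
    intro y hy
    obtain ⟨y', hy', h⟩ := hmax y hy
    exact (hx hy hy' h).trans_le (le_csSup hs.bddAbove ⟨y', hy', rfl⟩)
  refine ⟨le_antisymm ?_ ?_, hlt, hmax⟩
  · by_contra hc
    refine (hs.sSup_lt (not_le.1 hc) ?_).false
    rintro _ ⟨y, hy, rfl⟩
    exact hlt y hy
  · refine succ_le_of_lt (not_le.1 fun hc => hY ?_)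
    obtain ⟨cs, -, c2, c3⟩ := exists_cofSeq (sSup (x '' Y))
    have key : ∀ j < (sSup (x '' Y)).cof.ord, ∃ y ∈ Y, cs j < x y := by
      intro j hj
      by_contra h'
      push Not at h'
      refine (c2 j hj).not_ge (csSup_le' ?_)
      rintro _ ⟨y, hy, rfl⟩
      exact h' y hy
    choose! yy hyy hyl using key
    refine clash_cover hu ((Sz_Iio (o := (sSup (x '' Y)).cof.ord) (by simpa using hc)).image yy)
      ?_ fun w hw => ?_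
    · rintro _ ⟨j, hj, rfl⟩
      exact hY' _ (hyy j hj)
    · obtain ⟨j, hj, h⟩ := c3 _ (hlt w hw)
      exact ⟨_, ⟨j, hj, rfl⟩, ((hx.lt_iff_lt hw (hyy j hj)).1 (h.trans_lt (hyl j hj))).le⟩

end Pool.Agent.MP_ef13ad_lc
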