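import Pool.Agent.Lib.MP_ef13ad_lc.T.Defs
import Pool.Agent.Lib.MP_ef13ad_lc.Clash

open Cardinal Ordinal Set Order

namespace Pool.Agent.MP_ef13ad_lc

theorem Thin2_unb {u : Cardinal.{0}} {Z E : Set Ordinal.{0}} (hE : E ⊆ Z) (hE' : ¬ Sz E u)
    (hZ : ∀ z ∈ Z, Sz (Z ∩ Iio z) u) {z : Ordinal.{0}} (hz : z ∈ Z) : ∃ b ∈ E, z ≤ b := by
  by_contra hn
  push Not at hn
  exact hE' ((hZ z hz).mono fun b hb => ⟨hE hb, hn b hb⟩)

theorem GoodIn.noThin {k : Cardinal.{0}} {X D : Set Ordinal.{0}}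
    {F : Ordinal.{0} → Ordinal.{0} → Ordinal.{0}} (h : GoodIn k X D F) : NoThin k X D F := by
  intro u hu huk Z hZX hZ hZ' C hCD V hC hV H
  have hne : Z.Nonempty := by
    rw [nonempty_iff_ne_empty]
    rintro rfl
    exact hZ (Sz_of_countable countable_empty hu)
  obtain ⟨z0, hz0⟩ := hne
  obtain ⟨d, h1, h2, h3⟩ := h u hu huk Z hZX hZ hZ' ⟨C, hCD, hC, fun s hs => by
    obtain ⟨i, hi, h4, -⟩ := H z0 hz0 s hs
    exact ⟨i, hi, h4⟩⟩
  have key : ∀ b ∈ Z, ∃ z ∈ Z, ∃ i ∈ C, F z i ∈ V ∧ d b i < F z i ∧ F z i ≤ d z i := by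
    intro b hb
    obtain ⟨z, hz, s1, hs1, h4⟩ := h3 b hb
    obtain ⟨s2, hs2, h5⟩ := h2 z hz
    have hm : max s1 s2 ∈ D := by
      rcases max_choice s1 s2 with e | e <;> rw [e] <;> assumption
    obtain ⟨i, hi, h6, h7⟩ := H z hz _ hm
    exact ⟨z, hz, i, hi, h7, h4 i (hCD hi) ((le_max_left _ _).trans h6),
      h5 i (hCD hi) ((le_max_right _ _).trans h6)⟩
  choose! z hz i hi hV' hlt hle using key
  obtain ⟨i0, hi0, v, -, hE⟩ := pigeon2 i (fun b => F (z b) (i b)) hu hZ hC hV hi hV'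
  obtain ⟨b, hb, -⟩ := Thin2_unb (fun _ ha => ha.1) hE hZ' hz0
  obtain ⟨b', hb', hbb⟩ := Thin2_unb (fun _ ha => ha.1) hE hZ' (hz b hb.1)
  have e1 := hle b hb.1
  have e2 := hlt b' hb'.1
  rw [hb.2.2, hb.2.1] at e1
  rw [hb'.2.2, hb'.2.1] at e2
  exact absurd (e1.trans (h1 _ (hz b hb.1) _ hb'.1 hbb i0 (hCD hi0))) e2.not_ge

theorem exists_enum {k : Cardinal.{0}} {X : Set Ordinal.{0}} (hk : ℵ₀ ≤ k) (hX : ¬ Sz X k)
    (hX' : ∀ x ∈ X, Sz (X ∩ Iio x) k) :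
    ∃ p : Ordinal.{0} → Ordinal.{0}, StrictMonoOn p (Iio (succ k).ord) ∧
      ∀ j < (succ k).ord, p j ∈ X := by
  obtain ⟨p, hp⟩ := exists_rec (β := Ordinal.{0})
    (fun j x b => j < (succ k).ord → (∀ l < j, x l ∈ X) → b ∈ X ∧ ∀ l < j, x l < b)
    (fun j x y b hxy h hj hy => by
      obtain ⟨h1, h2⟩ := h hj fun l hl => (hxy l hl).symm ▸ hy l hl
      exact ⟨h1, fun l hl => hxy l hl ▸ h2 l hl⟩)
    (fun j x => by
      by_contra hn
      push Not at hn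
      obtain ⟨hj, hx, -⟩ := hn 0
      have hJ : Sz (Iio j) k := Sz_Iio (lt_succ_iff.1 (Cardinal.lt_ord.1 hj))
      refine hX ((hJ.biUnion (T := fun l => (X ∩ Iio (x l)) ∪ {x l})
        (fun l hl => (hX' _ (hx l hl)).union (Sz_singleton _ hk) hk) hk).mono fun b hb => ?_)
      obtain ⟨l, hl, h⟩ := (hn b).2.2 hb
      refine mem_biUnion hl ?_
      rcases h.eq_or_lt with e | e
      · exact Or.inr e
      · exact Or.inl ⟨hb, e⟩)
  have hm : ∀ j, j < (succ k).ord → p j ∈ X := by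
    intro j
    induction j using WellFoundedLT.induction with
    | ind j ih => exact fun hj => (hp j hj fun l hl => ih l hl (hl.trans hj)).1
  exact ⟨p, fun a _ b hb hab => (hp b hb fun l hl => hm l (hl.trans hb)).2 a hab, hm⟩

end Pool.Agent.MP_ef13ad_lc
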