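import Pool.Agent.Lib.MP_ef13ad_lc.T.GoodIn
import Pool.Agent.Lib.MP_ef13ad_lc.T.Thin2
import Pool.Agent.Lib.MP_ef13ad_lc.T.Fam
import Pool.Agent.Lib.MP_ef13ad_lc.T.Exa
import Pool.Agent.Lib.MP_ef13ad_lc.R.Cases
import Pool.Agent.Lib.MP_ef13ad_lc.Global

open Cardinal Ordinal Set Order

namespace Pool.Agent.MP_ef13ad_lc

theorem level_sing {a i : Ordinal.{0}} (hi : i < ω₁) (hl : IsSuccLimit i) :
    ℵ₀ < ℵ_ (a + i) ∧ (ℵ_ (a + i)).ord.cof = ℵ₀ ∧ (ℵ_ (a + i)).IsSingular :=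
  global_sing (isSuccLimit_add a hl)
    (by rw [cof_add a hl.ne_bot, cof_eq_aleph0_of_isSuccLimit hl hi])

theorem level_succ {a i o : Ordinal.{0}} (hi : i < ω₁) (h1 : ℵ_ a < o.cof)
    (h2 : o.cof < ℵ_ (a + i)) : ∃ x < i, o.cof = succ (ℵ_ (a + x)) := by
  obtain ⟨y, hy⟩ : o.cof ∈ range aleph :=
    mem_range_aleph_iff.2 ((aleph0_le_aleph a).trans h1.le)
  rw [← hy, aleph_lt_aleph] at h1 h2
  obtain ⟨x, rfl⟩ : ∃ x, y = a + x := ⟨y - a, (Ordinal.add_sub_cancel_of_le h1.le).symm⟩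
  have hx : x < i := by simpa using h2
  rcases zero_or_succ_or_isSuccLimit x with rfl | ⟨x', rfl⟩ | hlim
  · simp at h1
  · refine ⟨x', (lt_succ x').trans hx, ?_⟩
    rw [← hy, succ_aleph, Order.succ_eq_add_one, add_assoc]
  · have h3 := (level_sing (a := a) (hx.trans hi) hlim).2.2.cof_ord_lt
    rw [hy, Ordinal.cof_ord_cof] at h3
    exact absurd h3 (lt_irrefl _)

theorem CC.exists_lev {a i : Ordinal.{0}} {r : Cardinal.{0}} (hi : i < ω₁) (hl : IsSuccLimit i)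
    (hr : r.IsRegular) (h : CC r (ℵ_ (a + i))) : ∃ G h e, Lev a i G h e := by
  classical
  obtain ⟨h0, hcof, hs⟩ := level_sing (a := a) hi hl
  obtain ⟨X, D, F, hX, hX', hD, hF, hI, hG⟩ := h.goodIn h0.le hr
  obtain ⟨c, hc, hc'⟩ := hG.noThin.exists_cof hs hX hD hF
  rw [hcof, ord_aleph0] at hc hc'
  obtain ⟨G, hGD, hGF⟩ := hG.exists_goodFam h0.le hX hX' hF hI hc hc'
  obtain ⟨g, hE, hlt, hgt⟩ := hGF.exists_exact hs hD hGD
  have he : ∀ n : Ordinal.{0}, ∃ x, ℵ_ a < (g n).cof → (g n).cof < ℵ_ (a + i) →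
      x < i ∧ (g n).cof = succ (ℵ_ (a + x)) := by
    intro n
    by_cases hn : ℵ_ a < (g n).cof ∧ (g n).cof < ℵ_ (a + i)
    · obtain ⟨x, hx⟩ := level_succ hi hn.1 hn.2
      exact ⟨x, fun _ _ => hx⟩
    · exact ⟨0, fun h1 h2 => absurd ⟨h1, h2⟩ hn⟩
  choose e he using he
  have ha : ℵ_ a < ℵ_ (a + i) := by
    rw [aleph_lt_aleph]
    simpa using hl.bot_lt
  have hA : AE ω (fun n => e n < i ∧ (g n).cof = succ (ℵ_ (a + e n))) :=
    ((hgt _ ha).and hlt).mono fun n _ hn => he n hn.1 hn.2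
  refine ⟨G, g, e, hGF, hE, hA, fun j hj => ?_⟩
  have hj' : ℵ_ (a + (j + 1)) < ℵ_ (a + i) := by
    rw [aleph_lt_aleph]
    simpa using hl.add_one_lt hj
  refine (hA.and (hgt _ hj')).mono fun n _ hn => ?_
  obtain ⟨⟨-, h1⟩, h2⟩ := hn
  rw [h1, succ_aleph, aleph_lt_aleph, add_assoc] at h2
  have h3 : j + 1 < e n + 1 := by simpa only [add_lt_add_iff_left] using h2
  by_contra hc
  exact h3.not_ge (add_le_add_left (not_lt.1 hc) 1)

end Pool.Agent.MP_ef13ad_lc
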