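import Pool.Agent.Lib.MP_ef13ad_lc.T.Defs

open Cardinal Ordinal Set Order

namespace Pool.Agent.MP_ef13ad_lc

theorem exists_seq_op {l : Cardinal.{0}} {n : Ordinal.{0}} (m : Ordinal.{0} → Cardinal.{0})
    (hm : ∀ i < n, ℵ₀ ≤ m i) (hcof : ∀ g < l.ord, AE n (fun i => g < (m i).ord))
    (P : (Ordinal.{0} → Ordinal.{0}) → Ordinal.{0} → Ordinal.{0})
    (hP : ∀ f, (∀ i < n, f i < (succ (m i)).ord) → ∀ i < n, P f i < (succ (m i)).ord) :
    ∃ F : Ordinal.{0} → Ordinal.{0} → Ordinal.{0},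
      (∀ b < (succ l).ord, ∀ i < n, F b i < (succ (m i)).ord) ∧
      ∀ b b', b < b' → b' < (succ l).ord → AE n (fun i => F b i < F b' i ∧ P (F b) i < F b' i) := by
  have h0 : ∀ a < (succ l).ord, ∃ e : Ordinal.{0} → Ordinal.{0},
      InjOn e (Iio a) ∧ ∀ b ∈ Iio a, e b < l.ord := fun a ha =>
    (Sz_Iio (lt_succ_iff.1 (Cardinal.lt_ord.1 ha))).exists_injOn
  choose! e he1 he2 using h0
  let B : Ordinal.{0} → Ordinal.{0} → Set Ordinal.{0} :=
    fun a i => {b | b < a ∧ e a b < (m i).ord}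
  have hB : ∀ a < (succ l).ord, ∀ i, Sz (B a i) (m i).ord.card := fun a ha i =>
    Sz_of_injOn (Sz_Iio le_rfl) ((he1 a ha).mono fun b hb => hb.1) fun b hb => hb.2
  obtain ⟨F, hF⟩ := exists_rec (β := Ordinal.{0} → Ordinal.{0})
    (fun j x b => ∀ i, b i = sSup ((fun y => max (x y i) (P (x y) i) + 1) '' B j i))
    (fun j x y b hxy h i => by
      rw [h i]
      congr 1
      exact image_congr fun z hz => by rw [hxy z hz.1])
    (fun j x => ⟨fun i => sSup ((fun y => max (x y i) (P (x y) i) + 1) '' B j i), fun _ => rfl⟩)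
  have hlt : ∀ a < (succ l).ord, ∀ i, ∀ b ∈ B a i, max (F b i) (P (F b) i) < F a i := by
    intro a ha i b hb
    rw [hF a i]
    exact (lt_add_one _).trans_le (le_csSup ((hB a ha i).image _).bddAbove ⟨b, hb, rfl⟩)
  refine ⟨F, fun a => ?_, fun b a hba ha => ?_⟩
  · induction a using WellFoundedLT.induction with
    | ind a ih =>
      intro ha i hi
      have h1 := isRegular_succ (hm i hi)
      rw [hF a i]
      refine ((hB a ha i).image _).sSup_lt (by rw [h1.cof_ord, card_ord]; exact lt_succ _) ?_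
      rintro _ ⟨b, hb, rfl⟩
      have h2 := ih b hb.1 (hb.1.trans ha)
      exact (isSuccLimit_ord h1.aleph0_le).add_one_lt (max_lt (h2 i hi) (hP _ h2 i hi))
  · exact (hcof _ (he2 a ha b hba)).mono fun i _ h => max_lt_iff.1 (hlt a ha i b ⟨hba, h⟩)

end Pool.Agent.MP_ef13ad_lc
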