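import Pool.Agent.Lib.MP_ef13ad_lc.T.Defs

open Cardinal Ordinal Set Order

namespace Pool.Agent.MP_ef13ad_lc

theorem exists_updown {a : Ordinal.{0}} (ha : 0 < a)
    (G : Ordinal.{0} → Ordinal.{0} → Ordinal.{0} → Ordinal.{0})
    (h e : Ordinal.{0} → Ordinal.{0} → Ordinal.{0})
    (H : ∀ i < ω₁, IsSuccLimit i → Lev a i (G i) (h i) (e i)) :
    ∃ (d : Ordinal.{0} → Ordinal.{0} → Ordinal.{0} → Ordinal.{0})
      (P : (Ordinal.{0} → Ordinal.{0}) → Ordinal.{0} → Ordinal.{0}),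
      (∀ f, (∀ i < ω₁, f i < (succ (ℵ_ (a + i))).ord) →
        ∀ i < ω₁, P f i < (succ (ℵ_ (a + i))).ord) ∧
      ∀ i < ω₁, IsSuccLimit i → ∀ f, (∀ j < ω₁, f j < (succ (ℵ_ (a + j))).ord) →
        (∀ x, P f i ≤ x → x < (succ (ℵ_ (a + i))).ord →
          AE ω (fun n => d i n (f (e i n)) < G i x n)) ∧
        AE ω (fun n => ∀ y, P f (e i n) ≤ y → y < (succ (ℵ_ (a + e i n))).ord →
          G i (f i) n ≤ d i n y) := by
  choose cs hmono hlt hcof using exists_cofSeq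
  have hup : ∀ (f : Ordinal.{0} → Ordinal.{0}) (i : Ordinal.{0}),
      ∃ x < (succ (ℵ_ (a + i))).ord, i < ω₁ → IsSuccLimit i →
        AE ω (fun n => cs (h i n) (f (e i n)) < h i n → cs (h i n) (f (e i n)) < G i x n) := by
    intro f i
    by_cases hi : i < ω₁ ∧ IsSuccLimit i
    · obtain ⟨x, hx, hx'⟩ := (H i hi.1 hi.2).2.1.2 fun n => cs (h i n) (f (e i n))
      exact ⟨x, hx, fun _ _ => hx'⟩
    · exact ⟨0, (isSuccLimit_ord ((aleph0_le_aleph _).trans (le_succ _))).pos,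
        fun h1 h2 => absurd ⟨h1, h2⟩ hi⟩
  choose up hup1 hup2 using hup
  have hz : ∀ (f : Ordinal.{0} → Ordinal.{0}) (i n : Ordinal.{0}), ∃ z, G i (f i) n < h i n →
      z < (h i n).cof.ord ∧ G i (f i) n ≤ cs (h i n) z := by
    intro f i n
    by_cases h1 : G i (f i) n < h i n
    · obtain ⟨z, h2, h3⟩ := hcof _ _ h1
      exact ⟨z, fun _ => ⟨h2, h3⟩⟩
    · exact ⟨0, fun h2 => absurd h2 h1⟩
  choose z hz using hz
  let T : (Ordinal.{0} → Ordinal.{0}) → Ordinal.{0} → Set Ordinal.{0} := fun f j =>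
    {w | ∃ i < ω₁, ∃ n < ω, G i (f i) n < h i n ∧ (h i n).cof = succ (ℵ_ (a + j)) ∧ w = z f i n}
  have hT : ∀ f j, Sz (T f j) (ℵ_ (a + j)) := by
    intro f j
    have h1 : ℵ₁ ≤ ℵ_ (a + j) :=
      aleph_le_aleph.2 ((Order.one_le_iff_pos.2 ha).trans le_self_add)
    refine (Sz.biUnion (A := Iio ω₁) (T := fun i => z f i '' Iio ω) (Sz_Iio (by simpa using h1))
      (fun i _ => (Sz_Iio (by simp)).image _) (aleph0_le_aleph _)).mono ?_
    rintro _ ⟨i, hi, n, hn, -, -, rfl⟩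
    exact mem_biUnion hi ⟨n, hn, rfl⟩
  refine ⟨fun i n => cs (h i n), fun f j => max (up f j) (sSup (T f j)), fun f _ j _ => ?_,
    fun i hi hl f hf => ⟨fun x hx hx' => ?_, ?_⟩⟩
  · refine max_lt (hup1 f j) ((hT f j).sSup_lt ?_ ?_)
    · rw [(isRegular_succ (aleph0_le_aleph _)).cof_ord]
      exact lt_succ _
    · rintro _ ⟨i, -, n, -, h1, h2, rfl⟩
      exact h2 ▸ (hz f i n h1).1
  · obtain ⟨⟨hinc, -⟩, -, h3, -⟩ := H i hi hl
    refine (((hup2 f i hi hl).and h3).and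
      (hinc.le omega0_pos ((le_max_left _ _).trans hx) hx')).mono fun n _ hn => ?_
    obtain ⟨⟨h4, h5, h6⟩, h7⟩ := hn
    exact (h4 (hlt _ _ (h6 ▸ hf _ (h5.trans hi)))).trans_le h7
  · obtain ⟨-, ⟨h2, -⟩, h3, -⟩ := H i hi hl
    refine ((h2 _ (hf i hi)).and h3).mono fun n hn hn' y hy hy' => ?_
    obtain ⟨h4, -, h6⟩ := hn'
    obtain ⟨h7, h8⟩ := hz f i n h4
    refine h8.trans ((hmono _).monotoneOn h7 (by rw [h6]; exact hy') ?_)
    exact (le_csSup (hT f _).bddAbove ⟨i, hi, n, hn, h4, h6, rfl⟩).trans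
      ((le_max_right _ _).trans hy)

end Pool.Agent.MP_ef13ad_lc
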