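import Pool.Agent.Lib.MP_ef13ad_lc.T.Inter
import Pool.Agent.Lib.MP_ef13ad_lc.T.SeqOp
import Pool.Agent.Lib.MP_ef13ad_lc.T.UpDown
import Pool.Agent.Lib.MP_ef13ad_lc.R.NoThin

open Cardinal Ordinal Set Order

namespace Pool.Agent.MP_ef13ad_lc

theorem reflect2_surj (b : Ordinal.{0}) (hb : b < ω₁) :
    ∃ s : Ordinal.{0} → Ordinal.{0}, ∀ y < b, ∃ n < ω, s n = y := by
  have h1 : b.card ≤ ℵ₀ := by
    rw [← ord_aleph, lt_ord, ← succ_aleph0] at hb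
    exact lt_succ_iff.1 hb
  obtain ⟨e, he, he'⟩ := (Sz_Iio h1).exists_injOn
  refine ⟨Function.invFunOn e (Iio b), fun y hy => ⟨e y, ?_, he.leftInvOn_invFunOn hy⟩⟩
  simpa using he' y hy

theorem reflect2 {a : Ordinal.{0}} {u : Cardinal.{0}} (hu0 : ℵ₀ ≤ u) (hu : u < ℵ_ a)
    (H : ∀ i < ω₁, IsSuccLimit i → ∃ G h e, Lev a i G h e) :
    ∃ G, Bd (succ (ℵ_ (a + ω₁))).ord G ∧ ∀ Y, Wit (ℵ_ (a + ω₁)) u G Y →
      (∃ b < ω₁, ∀ y ∈ Y, y < ω₁ → y < b) → False := by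
  have ha : 0 < a := by
    rw [← aleph_lt_aleph, aleph_zero]
    exact hu0.trans_lt hu
  choose! G h e H using H
  obtain ⟨d, P, hP, hUD⟩ := exists_updown ha G h e H
  have hn : IsSuccLimit ω₁ := isSuccLimit_omega 1
  have hmk : ∀ i < ω₁, ℵ_ (a + i) < ℵ_ (a + ω₁) := fun i hi =>
    aleph_lt_aleph.2 (add_lt_add_right hi a)
  have hcof : ∀ g < (ℵ_ (a + ω₁)).ord, AE ω₁ (fun i => g < (ℵ_ (a + i)).ord) := by
    intro g hg
    obtain ⟨b, hb, hb'⟩ := (isNormal_aleph.lt_iff_exists_lt (isSuccLimit_add a hn)).1 (lt_ord.1 hg)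
    obtain ⟨j, hj, hj'⟩ := (lt_add_iff_of_isSuccLimit hn).1 hb
    exact ⟨j, hj, fun i h1 _ => lt_ord.2 (hb'.trans (aleph_lt_aleph.2
      (hj'.trans_le (add_le_add_right h1 a))))⟩
  have hnk : ω₁ < (ℵ_ (a + ω₁)).ord := by
    rw [ord_aleph, omega_lt_omega]
    exact (one_lt_omega0.trans omega0_lt_omega_one).trans_le le_add_self
  have hk0 : ℵ₀ ≤ ℵ_ (a + ω₁) := aleph0_le_aleph _
  obtain ⟨F, hb, hF⟩ := exists_seq_op (l := ℵ_ (a + ω₁)) (fun i => ℵ_ (a + i))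
    (fun i _ => aleph0_le_aleph _) hcof P hP
  generalize ℵ_ (a + ω₁) = k at hmk hnk hk0 hb hF ⊢
  have hkL : k.ord < (succ k).ord := ord_lt_ord.2 (lt_succ k)
  have hLl : IsSuccLimit (succ k).ord := isSuccLimit_ord (hk0.trans (le_succ k))
  have hL : 0 < (succ k).ord := hLl.pos
  have hFk : ∀ z < (succ k).ord, ∀ j < ω₁, F z j < k.ord := fun z hz j hj =>
    (hb z hz j hj).trans_le (ord_le_ord.2 (succ_le_of_lt (hmk j hj)))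
  choose! sj hsj using reflect2_surj
  have h0 : ∀ g < (succ k).ord, ∃ q : Ordinal.{0} → Ordinal.{0},
      InjOn q (Iio g) ∧ ∀ b ∈ Iio g, q b < k.ord := fun g hg =>
    (Sz_Iio (lt_succ_iff.1 (Cardinal.lt_ord.1 hg))).exists_injOn
  choose! q hq1 hq2 using h0
  obtain ⟨g0, b0, s0⟩ := clash_skolem hL fun x _ z => z = x + 1
  obtain ⟨g2, b2, s2⟩ := clash_skolem hL fun x y z =>
    z < ω₁ ∧ ∀ i, z ≤ i → i < ω₁ → F x i < F y i ∧ P (F x) i < F y i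
  obtain ⟨g3, b3, s3⟩ := clash_skolem hL fun x j z => z = F x j
  obtain ⟨g4, b4, s4⟩ := clash_skolem hL fun x n z => z = sj x n
  obtain ⟨g5, b5, s5⟩ := clash_skolem hL fun g x z => z = q g x
  refine ⟨fun r => match r with
      | 0 => g0 | 1 => fun _ _ => 0 | 2 => g2 | 3 => g3 | 4 => g4 | _ + 5 => g5,
    fun r x _ y _ => match r with
      | 0 => b0 x y | 1 => hL | 2 => b2 x y | 3 => b3 x y | 4 => b4 x y | _ + 5 => b5 x y, ?_⟩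
  rintro Y ⟨hYL, hcl, hY, hYk⟩ ⟨b, hbn, hbd⟩
  have c0 : ∀ x ∈ Y, ∀ y ∈ Y, g0 x y ∈ Y := hcl 0
  have c1 : ∀ x ∈ Y, ∀ y ∈ Y, (0 : Ordinal.{0}) ∈ Y := hcl 1
  have c2 : ∀ x ∈ Y, ∀ y ∈ Y, g2 x y ∈ Y := hcl 2
  have c3 : ∀ x ∈ Y, ∀ y ∈ Y, g3 x y ∈ Y := hcl 3
  have c4 : ∀ x ∈ Y, ∀ y ∈ Y, g4 x y ∈ Y := hcl 4
  have c5 : ∀ x ∈ Y, ∀ y ∈ Y, g5 x y ∈ Y := hcl 5
  have hsucc : ∀ y ∈ Y, y + 1 ∈ Y := fun y hy =>
    s0 y y ⟨_, hLl.add_one_lt (hYL hy), rfl⟩ ▸ c0 y hy y hy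
  have h0Y : (0 : Ordinal.{0}) ∈ Y := by
    obtain ⟨x, hx⟩ : Y.Nonempty := by
      by_contra h
      rw [not_nonempty_iff_eq_empty] at h
      exact hY (Sz_of_subsingleton (h ▸ subsingleton_empty) hu0)
    exact c1 x hx x hx
  have hnat : ∀ n < ω, n ∈ Y := by
    intro n hn
    obtain ⟨m, rfl⟩ := lt_omega0.1 hn
    clear hn
    induction m with
    | zero => simpa using h0Y
    | succ m ih => simpa using hsucc _ ih
  have hinit : ∀ g ∈ Y, Sz (Y ∩ Iio g) u := by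
    intro g hg
    refine Sz_of_injOn hYk ((hq1 g (hYL hg)).mono inter_subset_right) fun x hx => ?_
    have h1 := hq2 g (hYL hg) x hx.2
    exact ⟨s5 g x ⟨_, h1.trans hkL, rfl⟩ ▸ c5 g hg x hx.1, h1⟩
  have hbdd : BddAbove (Y ∩ Iio ω₁) := ⟨b, fun y hy => (hbd y hy.1 hy.2).le⟩
  obtain ⟨w, hw⟩ : ∃ w, w = sSup (Y ∩ Iio ω₁) := ⟨_, rfl⟩
  have hwn : w < ω₁ := by
    rw [hw]
    exact (csSup_le' fun y hy => (hbd y hy.1 hy.2).le).trans_lt hbn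
  have hlt : ∀ y ∈ Y, y < ω₁ → y < w := by
    intro y hy hyn
    rw [hw]
    exact (lt_add_one y).trans_le (le_csSup hbdd ⟨hsucc y hy, hn.add_one_lt hyn⟩)
  have hmem : ∀ j < w, j ∈ Y := by
    intro j hj
    obtain ⟨y, hy, hyn, hjy⟩ : ∃ y ∈ Y, y < ω₁ ∧ j < y := by
      by_contra hc
      push Not at hc
      rw [hw] at hj
      exact hj.not_ge (csSup_le' fun y hy => hc y hy.1 hy.2)
    obtain ⟨n, hn', rfl⟩ := hsj y hyn j hjy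
    exact s4 y n ⟨_, hjy.trans (hYL hy), rfl⟩ ▸ c4 y hy n (hnat n hn')
  have hwl : IsSuccLimit w := by
    refine isSuccLimit_iff.2 ⟨(hlt 0 h0Y hn.pos).ne', isSuccPrelimit_of_succ_lt fun j hj => ?_⟩
    exact hlt _ (hsucc j (hmem j hj)) (hn.add_one_lt (hj.trans hwn))
  have hth : ∀ x ∈ Y, ∀ y ∈ Y, x < y → ∃ s < w, ∀ i, s ≤ i → i < ω₁ →
      F x i < F y i ∧ P (F x) i < F y i := by
    intro x hx y hy hxy
    obtain ⟨h1, h2⟩ := s2 x y (by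
      obtain ⟨j, h1, h2⟩ := hF x y hxy (hYL hy)
      exact ⟨j, (h1.trans hnk).trans hkL, h1, h2⟩)
    exact ⟨_, hlt _ (c2 x hx y hy) h1, h2⟩
  obtain ⟨⟨l1, l2⟩, -, l3, l4⟩ := H w hwn hwl
  have hsm : StrictMonoOn (fun z => F z w) Y := fun x hx y hy hxy => by
    obtain ⟨s, hs, hs'⟩ := hth x hx y hy hxy
    exact (hs' w hs.le hwn).1
  obtain ⟨k1, k2, k3⟩ := cof_sSup_of_init hu0 hY hinit hsm
  have hut : u < ℵ_ (a + w) := hu.trans_le (aleph_le_aleph.2 le_self_add)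
  have hg : sSup ((fun z => F z w) '' Y) < (succ (ℵ_ (a + w))).ord := by
    refine ((noThin_succ hu0 hinit).image _).sSup_lt ?_ ?_
    · rw [(isRegular_succ (aleph0_le_aleph _)).cof_ord]
      exact succ_lt_succ hut
    · rintro _ ⟨z, hz, rfl⟩
      exact hb z (hYL hz) w hwn
  refine (l2 u hu0 hut _ hg k1).not_interleaved hu0 (by simpa using hu0) k1
    (fun n => d w n '' (Y ∩ Iio k.ord)) (fun n _ => hYk.image _) fun x hx => ?_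
  obtain ⟨z, hz, hxz⟩ : ∃ z ∈ Y, x < F z w := by
    by_contra hc
    push Not at hc
    exact hx.not_ge (csSup_le' (by rintro _ ⟨z, hz, rfl⟩; exact hc z hz))
  obtain ⟨z1, hz1, h1⟩ := k3 z hz
  obtain ⟨z2, hz2, h2⟩ := k3 z1 hz1
  obtain ⟨t1, ht1, ht1'⟩ := hth z hz z1 hz1 h1
  obtain ⟨t2, ht2, ht2'⟩ := hth z1 hz1 z2 hz2 h2
  have a1 := l1.le omega0_pos hxz.le (hb z (hYL hz) w hwn)
  have a2 := (hUD w hwn hwl (F z) (hb z (hYL hz))).2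
  have a3 := (hUD w hwn hwl (F z1) (hb z1 (hYL hz1))).1 (F z2 w) (ht2' w ht2.le hwn).2.le
    (hb z2 (hYL hz2) w hwn)
  refine ⟨F z2 w, k2 z2 hz2, fun hneg => ?_⟩
  obtain ⟨n, -, ⟨⟨⟨⟨e1, e2⟩, e3⟩, e4⟩, e5⟩, e6⟩ :=
    (((((a1.and a2).and a3).and l3).and (l4 t1 ht1)).and hneg).exists
  have hen : e w n < ω₁ := e4.1.trans hwn
  have hv : F z1 (e w n) < k.ord := hFk z1 (hYL hz1) _ hen
  refine e6 ⟨_, ⟨F z1 (e w n), ⟨?_, hv⟩, rfl⟩,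
    e1.trans (e2 _ (ht1' _ e5.le hen).2.le (hb z1 (hYL hz1) _ hen)), e3⟩
  exact s3 z1 (e w n) ⟨_, hv.trans hkL, rfl⟩ ▸ c3 z1 hz1 _ (hmem _ e4.1)

end Pool.Agent.MP_ef13ad_lc
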