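import Pool.Agent.Lib.MP_ef13ad_lc.T.Level
import Pool.Agent.Lib.MP_ef13ad_lc.T.Reflect2
import Pool.Agent.Lib.MP_ef13ad_lc.R.Main
import Pool.Agent.Lib.MP_ef13ad_lc.Global

open Cardinal Ordinal Set Order

namespace Pool.Agent.MP_ef13ad_lc

theorem main3_not_WC (a : Ordinal.{0}) (k : Cardinal.{0}) (hk : ℵ₀ ≤ k) (hka : k < ℵ_ a)
    (H : ∀ t : Cardinal.{0}, k < t → t ≤ ℵ_ (a + ω₁) → t.IsSingular → t.ord.cof ≤ k →
      ∃ r : Cardinal.{0}, r.IsRegular ∧ t < r ∧ CC r t) : ¬ WC (ℵ_ (a + ω₁)) k := by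
  intro hw
  have hw1 : IsSuccLimit (ω₁ : Ordinal.{0}) := isSuccLimit_omega 1
  have hlim : IsSuccLimit (a + ω₁) := isSuccLimit_add a hw1
  have hc1 : (a + ω₁).cof = ℵ₁ := by rw [cof_add a hw1.pos.ne', cof_omega_one]
  have hcof : (ℵ_ (a + ω₁)).ord.cof = ℵ₁ := by rw [ord_aleph, cof_omega hlim, hc1]
  have hs : (ℵ_ (a + ω₁)).IsSingular := by
    refine isSingular_aleph_iff.2 ⟨hlim, ?_⟩
    rw [hc1, aleph_lt_aleph]
    exact lt_of_lt_of_le (one_lt_omega0.trans omega0_lt_omega_one) le_add_self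
  have hco : (ℵ_ (a + ω₁)).ord.cof.ord = ω₁ := by rw [hcof, ord_aleph]
  have hkl : k < ℵ_ (a + ω₁) := hka.trans_le (aleph_le_aleph.2 le_self_add)
  obtain ⟨G1, hG1, h1⟩ := reflect2 hk hka (fun i hi hil => by
    obtain ⟨-, c1, c2⟩ := global_sing (isSuccLimit_add a hil)
      (by rw [cof_add a hil.pos.ne', cof_eq_aleph0_of_isSuccLimit hil hi])
    obtain ⟨r, hr, -, hrt⟩ := H (ℵ_ (a + i)) (hka.trans_le (aleph_le_aleph.2 le_self_add))
      (aleph_le_aleph.2 (add_le_add_right hi.le a)) c2 (c1 ▸ hk)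
    exact hrt.exists_lev hi hil hr)
  generalize ℵ_ (a + ω₁) = l at *
  rw [← hco] at h1
  have hl0 : ℵ₀ ≤ l := hk.trans hkl.le
  have hP : ∃ G, Bd (succ l).ord G ∧ ∀ Y, Wit l k G Y →
      ∃ b < l.ord.cof.ord, ∀ y ∈ Y, y < l.ord.cof.ord → y < b := by
    rcases le_or_gt l.ord.cof k with hck | hck
    · obtain ⟨r, hr, -, hrl⟩ := H l hkl le_rfl hs hck
      obtain ⟨X, D, F, hX, hX', hD, hF, hN⟩ := hrl.noThin hl0 hr
      obtain ⟨c, hc, hc'⟩ := hN.exists_cof hs hX hD hF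
      obtain ⟨G0, hG0, h0⟩ :=
        hN.push hl0 (ord_le_ord.2 (Ordinal.cof_ord_le l)) hX hX' hD hF hc hc'
      exact ⟨G0, hG0, h0 k hk hkl⟩
    · refine ⟨fun _ x _ => x, fun _ x hx _ _ => hx, fun Y hY => ?_⟩
      have hle : l.ord.cof.ord ≤ l.ord := ord_le_ord.2 (Ordinal.cof_ord_le l)
      have hS : Sz (Y ∩ Iio l.ord.cof.ord) k :=
        hY.2.2.2.mono (fun y hy => ⟨hy.1, lt_of_lt_of_le hy.2 hle⟩)
      obtain ⟨b, hb, hb'⟩ := hS.exists_bound (o := l.ord.cof.ord)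
        (by rw [Ordinal.cof_ord_cof]; exact hck) (fun a ha => ha.2)
      exact ⟨b, hb, fun y hy hy' => hb' y ⟨hy, hy'⟩⟩
  obtain ⟨G0, hG0, h0⟩ := hP
  obtain ⟨Y, hY1, hY2, hY3, hY4⟩ := hw
    (fun m => if m % 2 = 0 then G0 (m / 2) else G1 (m / 2)) (by
      intro m x hx y hy
      by_cases hm : m % 2 = 0
      · simp only [hm, if_true]
        exact hG0 _ x hx y hy
      · simp only [hm, if_false]
        exact hG1 _ x hx y hy)
  have w0 : Wit l k G0 Y := by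
    refine ⟨hY1, fun m x hx y hy => ?_, hY3, hY4⟩
    have := hY2 (2 * m) x hx y hy
    have e1 : 2 * m % 2 = 0 := by omega
    have e2 : 2 * m / 2 = m := by omega
    simpa only [e1, e2, if_true] using this
  have w1 : Wit l k G1 Y := by
    refine ⟨hY1, fun m x hx y hy => ?_, hY3, hY4⟩
    have := hY2 (2 * m + 1) x hx y hy
    have e1 : ¬ (2 * m + 1) % 2 = 0 := by omega
    have e2 : (2 * m + 1) / 2 = m := by omega
    simpa only [e1, e2, if_false] using this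
  exact h1 Y w1 (h0 Y w0)

theorem exists_blocked_aleph (a : Ordinal.{0}) (k : Cardinal.{0}) (hk : ℵ₀ ≤ k)
    (hkl : k < ℵ_ (a + ω₁)) (h : CC (ℵ_ (a + ω₁)) k) :
    ∃ t : Cardinal.{0}, k < t ∧ t ≤ ℵ_ (a + ω₁) ∧ t.IsSingular ∧ t.ord.cof ≤ k ∧
      ∀ r : Cardinal.{0}, r.IsRegular → t < r → ¬ CC r t := by
  by_contra hc
  push Not at hc
  have hw1 : IsSuccLimit (ω₁ : Ordinal.{0}) := isSuccLimit_omega 1
  have hw := main2_wc h (hk.trans hkl.le)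
  obtain ⟨y, hy⟩ := mem_range_aleph_iff.2 hk
  have hy' : y < a + ω₁ := by rwa [← hy, aleph_lt_aleph] at hkl
  obtain ⟨j, hj, hyj⟩ := (lt_add_iff_of_isSuccLimit hw1).1 hy'
  have e : a + j + ω₁ = a + ω₁ := by
    rw [add_assoc, (isPrincipal_add_omega 1).add_eq_right hj]
  rw [← e] at hc hw
  exact main3_not_WC (a + j) k hk (by rw [← hy, aleph_lt_aleph]; exact hyj) hc hw

end Pool.Agent.MP_ef13ad_lc
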